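import Pool.Agent.H378_PL.Defs
import Pool.Agent.H378_PL.Main
import Pool.Agent.H378_PL.TopoMain

/-!
# Every connected combinatorial `(n_3)` configuration with `n ≥ 9` is topologically realizable

The definitions used in the statement are in `Pool.Agent.H378_PL.Defs`.
-/

namespace Pool.Agent.H378_PL

open Finset

variable {P : Type} [Fintype P] [DecidableEq P] {n : ℕ}

theorem Config.isCfg (C : Config P n) :
    IsCfg (fun (p : P) (l : {l // l ∈ C.lines}) => p ∈ l.1) := by
  refine ⟨?_, ?_, ?_⟩
  · intro p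
    obtain ⟨x, y, z, hxy, hxz, hyz, he⟩ := Finset.card_eq_three.1 (C.point_deg p)
    have mem : ∀ w, w ∈ C.lines ∧ p ∈ w ↔ w = x ∨ w = y ∨ w = z := by
      intro w
      have h1 : w ∈ C.lines.filter (fun l => p ∈ l) ↔ w ∈ ({x, y, z} : Finset (Finset P)) := by
        rw [he]
      rw [Finset.mem_filter] at h1
      rw [h1]
      simp
    have hx := (mem x).2 (Or.inl rfl)
    have hy := (mem y).2 (Or.inr (Or.inl rfl))
    have hz := (mem z).2 (Or.inr (Or.inr rfl))
    refine ⟨⟨x, hx.1⟩, ⟨y, hy.1⟩, ⟨z, hz.1⟩, fun e => hxy (congrArg Subtype.val e),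
      fun e => hxz (congrArg Subtype.val e), fun e => hyz (congrArg Subtype.val e), ?_⟩
    rintro ⟨w, hw⟩
    simp only [Subtype.mk.injEq]
    rw [← mem w]
    exact ⟨fun h => ⟨hw, h⟩, fun h => h.2⟩
  · rintro ⟨w, hw⟩
    obtain ⟨x, y, z, hxy, hxz, hyz, he⟩ := Finset.card_eq_three.1 (C.line_card w hw)
    refine ⟨x, y, z, hxy, hxz, hyz, ?_⟩
    intro t
    simp [he]
  · rintro p q ⟨i, hi⟩ ⟨j, hj⟩ hpq h1 h2 h3 h4
    exact Subtype.ext (C.linear i hi j hj p q hpq h1 h2 h3 h4)

theorem Config.conn (C : Config P n) (hC : C.levi.Connected) :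
    Conn (fun (p : P) (l : {l // l ∈ C.lines}) => p ∈ l.1) := by
  intro X Y hXY
  let f : P ⊕ {l // l ∈ C.lines} → Prop := Sum.elim (· ∈ X) (· ∈ Y)
  have hadj : ∀ u v, C.levi.Adj u v → (f u ↔ f v) := by
    intro u v h
    rw [Config.levi, SimpleGraph.fromRel_adj] at h
    obtain ⟨-, ⟨p, l, rfl, rfl, hpl⟩ | ⟨p, l, rfl, rfl, hpl⟩⟩ := h
    · exact hXY p l hpl
    · exact (hXY p l hpl).symm
  have hall : ∀ u v, f u ↔ f v := by
    intro u v
    obtain ⟨w⟩ := hC.preconnected u v
    induction w with
    | nil => exact Iff.rfl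
    | cons h _ ih => exact (hadj _ _ h).trans ih
  by_cases hex : ∃ v, f v
  · obtain ⟨v, hv⟩ := hex
    right
    constructor
    · ext p
      simp only [mem_univ, iff_true]
      exact (hall (Sum.inl p) v).2 hv
    · ext l
      simp only [mem_univ, iff_true]
      exact (hall (Sum.inr l) v).2 hv
  · left
    constructor
    · ext p
      simp only [notMem_empty, iff_false]
      exact fun h => hex ⟨Sum.inl p, h⟩
    · ext l
      simp only [notMem_empty, iff_false]
      exact fun h => hex ⟨Sum.inr l, h⟩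

end Pool.Agent.H378_PL

open Pool.Agent.H378_PL

/-- For every `n ≥ 9`, every connected combinatorial `(n_3)` configuration has a realization as a
topological configuration: by pseudolines of the real projective plane. -/
theorem Pool.Agent.Results.MP_e3e9c0_co.PseudolineRealization.result :
    ∀ n : ℕ, 9 ≤ n → ∀ (P : Type) [Fintype P] [DecidableEq P] (C : Config P n),
      C.levi.Connected → C.TopologicallyRealizable := by
  intro n hn P _ _ C hC
  have hP : Fintype.card P = n := C.card_points
  have hL : Fintype.card {l // l ∈ C.lines} = n := by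
    rw [Fintype.card_coe]
    exact C.card_lines
  have hne : Nonempty P := Fintype.card_pos_iff.1 (by omega)
  exact topo_of_realizable (realizable_all C.isCfg (C.conn hC) (by
    rw [Fintype.card_sum, hP, hL]
    omega))
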